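import Mathlib
import Pool.Agent.H239R3.ZDg

set_option autoImplicit false

/-!
Lower bound for the number of colours of a stationary 1-dependent colouring of `ℤ^d`, all `d`.

`hprop`: adjacent sites (`ℓ¹` distance 1) almost surely get different colours.
`hdep`: the families of colours on `A` and on `B` are independent whenever all sites of `A` are at
`ℓ¹` distance more than `1` from all sites of `B`.
-/

open MeasureTheory ProbabilityTheory

namespace Pool.Agent.Results.MP_ee7213_pr.LinearLowerBound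

open Pool.Agent.H239R3.ZD

/-- the growth constants: `growth 0 = 1`, and `growth (n + 1)` is the positive root of
`m ^ 2 - (1 + growth n) * m - growth n` -/
noncomputable def growth : ℕ → ℝ
  | 0 => 1
  | n + 1 => ((1 + growth n) + Real.sqrt ((1 + growth n) ^ 2 + 4 * growth n)) / 2

lemma growth_spec (n : ℕ) : (n : ℝ) + 1 ≤ growth n ∧ 1 + growth n < growth (n + 1) ∧
    growth (n + 1) * (growth (n + 1) - 1) = growth n * (growth (n + 1) + 1) := by
  have key : ∀ x : ℝ, 1 ≤ x → 1 + x < ((1 + x) + Real.sqrt ((1 + x) ^ 2 + 4 * x)) / 2 ∧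
      ((1 + x) + Real.sqrt ((1 + x) ^ 2 + 4 * x)) / 2 *
        (((1 + x) + Real.sqrt ((1 + x) ^ 2 + 4 * x)) / 2 - 1) =
        x * (((1 + x) + Real.sqrt ((1 + x) ^ 2 + 4 * x)) / 2 + 1) := by
    intro x hx
    have h1 : 0 ≤ (1 + x) ^ 2 + 4 * x := by positivity
    have h2 := Real.sq_sqrt h1
    have h3 : 1 + x < Real.sqrt ((1 + x) ^ 2 + 4 * x) := by
      apply Real.lt_sqrt_of_sq_lt
      linarith
    constructor
    · linarith
    · nlinarith
  have hn : (n : ℝ) + 1 ≤ growth n := by
    induction n with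
    | zero => simp [growth]
    | succ n ih =>
      have h0 : (0 : ℝ) ≤ n := Nat.cast_nonneg n
      have := (key (growth n) (by linarith)).1
      push_cast
      show _ ≤ ((1 + growth n) + Real.sqrt ((1 + growth n) ^ 2 + 4 * growth n)) / 2
      linarith
  have h0 : (0 : ℝ) ≤ n := Nat.cast_nonneg n
  exact ⟨hn, (key (growth n) (by linarith)).1, (key (growth n) (by linarith)).2⟩

lemma growth_lower (n : ℕ) : 2 * (n : ℝ) + 1 - 2 * Real.log (n + 1) ≤ growth n := by
  induction n with
  | zero => simp [growth]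
  | succ n ih =>
    have h0 : (0 : ℝ) ≤ n := Nat.cast_nonneg n
    obtain ⟨h1, h2, h3⟩ := growth_spec n
    have h4 : growth (n + 1) = growth n + 2 - 2 / (growth (n + 1) + 1) * 1
        + 0 * growth n := by
      have h5 : growth (n + 1) + 1 ≠ 0 := by linarith
      field_simp
      nlinarith
    have h6 : 2 / (growth (n + 1) + 1) ≤ 2 / ((n : ℝ) + 2) :=
      div_le_div_of_nonneg_left (by norm_num) (by linarith) (by linarith)
    have h7 := Real.one_sub_inv_le_log_of_pos (show 0 < ((n : ℝ) + 2) / (n + 1) by positivity)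
    rw [Real.log_div (by positivity) (by positivity)] at h7
    have h8 : 1 - (((n : ℝ) + 2) / (n + 1))⁻¹ = 1 / ((n : ℝ) + 2) := by
      field_simp; ring
    rw [h8] at h7
    have h9 : 2 / ((n : ℝ) + 2) = 2 * (1 / ((n : ℝ) + 2)) := by ring
    push_cast
    have h10 : (n : ℝ) + 1 + 1 = n + 2 := by ring
    rw [h10]
    linarith

lemma adjd_dist {d : ℕ} (v w : Fin d → ℤ) (h : adjd v w) : ∑ i, |v i - w i| = 1 := by
  obtain ⟨i, b, rfl⟩ := h
  rw [Finset.sum_eq_single i]
  · rw [nb_self]
    have : v i - (v i + sz b) = - sz b := by ring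
    rw [this, abs_neg, sz_abs]
  · intro k _ hk
    rw [nb_ne v i b hk]; simp
  · intro h; exact absurd (Finset.mem_univ _) h

lemma not_adjd_dist {d : ℕ} (v w : Fin d → ℤ) (hne : v ≠ w) (h : ¬ adjd v w) :
    1 < ∑ i, |v i - w i| := by
  by_contra hcon
  push Not at hcon
  obtain ⟨i, hi⟩ := Function.ne_iff.mp hne
  have h1 : 1 ≤ |v i - w i| := Int.one_le_abs (sub_ne_zero.mpr hi)
  have h2 : ∀ k, k ≠ i → v k = w k := by
    intro k hk
    by_contra hvk
    have h3 : 1 ≤ |v k - w k| := Int.one_le_abs (sub_ne_zero.mpr hvk)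
    have h4 : |v i - w i| + |v k - w k| ≤ ∑ j, |v j - w j| := by
      rw [← Finset.sum_pair (f := fun j => |v j - w j|) (Ne.symm hk)]
      exact Finset.sum_le_sum_of_subset_of_nonneg (Finset.subset_univ _)
        (fun _ _ _ => abs_nonneg _)
    linarith
  have h5 : |v i - w i| ≤ 1 := le_trans (Finset.single_le_sum
    (f := fun j => |v j - w j|) (fun _ _ => abs_nonneg _) (Finset.mem_univ i)) hcon
  apply h
  rcases abs_cases (v i - w i) with hc | hc
  · refine ⟨i, false, ?_⟩
    funext k
    by_cases hk : k = i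
    · subst hk; rw [nb_self]; simp [sz]; omega
    · rw [nb_ne v i _ hk, h2 k hk]
  · refine ⟨i, true, ?_⟩
    funext k
    by_cases hk : k = i
    · subst hk; rw [nb_self]; simp [sz]; omega
    · rw [nb_ne v i _ hk, h2 k hk]

theorem result (d : ℕ) (hd1 : 1 ≤ d) (q : ℕ)
    (μ : Measure ((Fin d → ℤ) → Fin q)) [IsProbabilityMeasure μ]
    (hstat : ∀ a : Fin d → ℤ,
      Measure.map (fun (X : (Fin d → ℤ) → Fin q) (v : Fin d → ℤ) => X (v + a)) μ = μ)
    (hprop : ∀ᵐ X ∂μ, ∀ u v : Fin d → ℤ, ∑ i, |u i - v i| = 1 → X u ≠ X v)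
    (hdep : ∀ A B : Set (Fin d → ℤ), (∀ u ∈ A, ∀ v ∈ B, 1 < ∑ i, |u i - v i|) →
      Indep
        (⨆ v ∈ A, MeasurableSpace.comap (fun X : (Fin d → ℤ) → Fin q => X v)
          (⊤ : MeasurableSpace (Fin q)))
        (⨆ v ∈ B, MeasurableSpace.comap (fun X : (Fin d → ℤ) → Fin q => X v)
          (⊤ : MeasurableSpace (Fin q))) μ) :
    (growth (d - 1) + 1) * Real.log (growth (d - 1) + 1)
        - growth (d - 1) * Real.log (growth (d - 1)) ≤ Real.log q ∧
      Real.exp 1 * (2 * (d : ℝ) - 1 - 2 * Real.log d) ≤ q := by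
  obtain ⟨n, rfl⟩ := Nat.exists_eq_add_of_le' hd1
  have hn1 : n + 1 - 1 = n := by omega
  rw [hn1]
  have hsum := dens_sum (μ := μ) (0 : Fin (n + 1) → ℤ)
  have hq : 0 < q := by
    rcases Nat.eq_zero_or_pos q with rfl | h
    · simp at hsum
    · exact h
  have hqr : (0 : ℝ) < q := by exact_mod_cast hq
  obtain ⟨c, hc⟩ : ∃ c : Fin q, 1 / (q : ℝ) ≤ μ.real {X : (Fin (n + 1) → ℤ) → Fin q | X 0 = c} := by
    by_contra hno
    push Not at hno
    have h2 : ∑ c : Fin q, μ.real {X : (Fin (n + 1) → ℤ) → Fin q | X 0 = c} <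
        ∑ _c : Fin q, (1 / (q : ℝ)) := by
      apply Finset.sum_lt_sum (fun c _ => (hno c).le)
      exact ⟨⟨0, hq⟩, Finset.mem_univ _, hno _⟩
    rw [hsum] at h2
    simp only [Finset.sum_const, Finset.card_univ, Fintype.card_fin, nsmul_eq_mul] at h2
    rw [mul_one_div_cancel hqr.ne'] at h2
    exact lt_irrefl _ h2
  have hgp : ∀ k, 0 < growth k := by
    intro k
    have h0 : (0 : ℝ) ≤ k := Nat.cast_nonneg k
    have := (growth_spec k).1
    linarith
  have hmain : Real.log (μ.real {X : (Fin (n + 1) → ℤ) → Fin q | X 0 = c}) ≤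
      growth n * Real.log (growth n) - (growth n + 1) * Real.log (growth n + 1) := by
    have hHC : HC adjd (μ.real {X : (Fin (n + 1) → ℤ) → Fin q | X 0 = c})
        (fun S => μ.real {X : (Fin (n + 1) → ℤ) → Fin q | ∀ w ∈ S, X (id w) ≠ c}) := by
      apply hc_of_emb id
      · filter_upwards [hprop] with X hX
        intro u v huv
        exact hX u v (adjd_dist u v huv)
      · intro A B hAB
        exact hdep A B (fun a ha b hb => not_adjd_dist a b (hAB a ha b hb).1 (hAB a ha b hb).2)
      · intro v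
        exact dens_const hstat c _
    have h := dens_d (n := n) (fun k => (growth (n - k))⁻¹) (fun k _ => inv_pos.mpr (hgp _))
      (fun k hk => by
        obtain ⟨j, hj⟩ : ∃ j, n - k = j + 1 := ⟨n - k - 1, by omega⟩
        show (growth (n - k))⁻¹ < 1
        rw [hj]
        apply inv_lt_one_of_one_lt₀
        have := (growth_spec j).2.1
        linarith [hgp j])
      (fun k hk => by
        obtain ⟨j, hj⟩ : ∃ j, n - k = j + 1 := ⟨n - k - 1, by omega⟩
        have hj2 : n - (k + 1) = j := by omega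
        show (growth (n - (k + 1)))⁻¹ * (1 - (growth (n - k))⁻¹) =
          (growth (n - k))⁻¹ * (1 + (growth (n - k))⁻¹)
        rw [hj, hj2]
        have h1 := (growth_spec j).2.2
        have h2 := (hgp j).ne'
        have h3 := (hgp (j + 1)).ne'
        field_simp
        linarith)
      (by simp [growth]) (lt_of_lt_of_le (by positivity) hc) hHC
    simpa using h
  have hlog : Real.log (1 / (q : ℝ)) ≤ Real.log (μ.real {X : (Fin (n + 1) → ℤ) → Fin q | X 0 = c}) :=
    Real.log_le_log (by positivity) hc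
  rw [one_div, Real.log_inv] at hlog
  have hA : (growth n + 1) * Real.log (growth n + 1) - growth n * Real.log (growth n) ≤
      Real.log q := by linarith
  refine ⟨hA, ?_⟩
  have hm := hgp n
  have h1 := Real.one_sub_inv_le_log_of_pos (show 0 < (growth n + 1) / growth n by positivity)
  rw [Real.log_div (by positivity) hm.ne'] at h1
  have h2 : (growth n + 1) * (1 - ((growth n + 1) / growth n)⁻¹) = 1 := by
    field_simp; ring
  have h3 := mul_le_mul_of_nonneg_left h1 (show 0 ≤ growth n + 1 by linarith)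
  rw [h2] at h3
  have h4 : 1 + Real.log (growth n) ≤ Real.log q := by nlinarith
  have h5 : Real.exp (1 + Real.log (growth n)) ≤ q := by
    rw [← Real.le_log_iff_exp_le hqr]; exact h4
  rw [Real.exp_add, Real.exp_log hm] at h5
  have h6 := growth_lower n
  have h7 : 2 * ((n + 1 : ℕ) : ℝ) - 1 - 2 * Real.log ((n + 1 : ℕ) : ℝ) ≤ growth n := by
    push_cast
    linarith
  exact le_trans (mul_le_mul_of_nonneg_left h7 (Real.exp_pos 1).le) h5

end Pool.Agent.Results.MP_ee7213_pr.LinearLowerBound
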