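import Mathlib
import Pool.Agent.H239R3.ZDc
import Pool.Agent.H239R3.ZDd

set_option autoImplicit false

/-!
For every `d ≥ 3`, a stationary 1-dependent colouring of `ℤ^d` uses at least `13` colours.

`hprop`: adjacent sites (`ℓ¹` distance 1) almost surely get different colours.
`hdep`: the families of colours on `A` and on `B` are independent whenever all sites of `A` are at
`ℓ¹` distance more than `1` from all sites of `B`.
-/

open MeasureTheory ProbabilityTheory

namespace Pool.Agent.Results.MP_ee7213_pr.ThreeDimThirteen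

open Pool.Agent.H239R3.ZD

def emb (e : ℕ) (v : V3) : Fin (e + 3) → ℤ :=
  Fin.cons v.1 (Fin.cons v.2.1 (Fin.cons v.2.2 (fun _ => 0)))

lemma emb_dist (e : ℕ) (v w : V3) :
    ∑ i, |emb e v i - emb e w i| = |v.1 - w.1| + (|v.2.1 - w.2.1| + |v.2.2 - w.2.2|) := by
  unfold emb
  rw [Fin.sum_univ_succ, Fin.sum_univ_succ, Fin.sum_univ_succ]
  simp only [Fin.cons_zero, Fin.cons_succ, sub_self, abs_zero, Finset.sum_const_zero, add_zero]

lemma adj3_dist (v w : V3) (h : adj3 v w) :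
    |v.1 - w.1| + (|v.2.1 - w.2.1| + |v.2.2 - w.2.2|) = 1 := by
  obtain ⟨x, y, z⟩ := v
  obtain ⟨a, b, c⟩ := w
  unfold adj3 at h
  simp only at h ⊢
  rcases abs_cases (x - a) with h1 | h1 <;> rcases abs_cases (y - b) with h2 | h2 <;>
    rcases abs_cases (z - c) with h3 | h3 <;> omega

lemma not_adj3_dist (v w : V3) (hne : v ≠ w) (h : ¬ adj3 v w) :
    1 < |v.1 - w.1| + (|v.2.1 - w.2.1| + |v.2.2 - w.2.2|) := by
  rw [ne_iff3] at hne
  obtain ⟨x, y, z⟩ := v
  obtain ⟨a, b, c⟩ := w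
  unfold adj3 at h
  simp only at h hne ⊢
  rcases abs_cases (x - a) with h1 | h1 <;> rcases abs_cases (y - b) with h2 | h2 <;>
    rcases abs_cases (z - c) with h3 | h3 <;> omega

theorem result (d : ℕ) (hd : 3 ≤ d) (q : ℕ)
    (μ : Measure ((Fin d → ℤ) → Fin q)) [IsProbabilityMeasure μ]
    (hstat : ∀ a : Fin d → ℤ,
      Measure.map (fun (X : (Fin d → ℤ) → Fin q) (v : Fin d → ℤ) => X (v + a)) μ = μ)
    (hprop : ∀ᵐ X ∂μ, ∀ u v : Fin d → ℤ, ∑ i, |u i - v i| = 1 → X u ≠ X v)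
    (hdep : ∀ A B : Set (Fin d → ℤ), (∀ u ∈ A, ∀ v ∈ B, 1 < ∑ i, |u i - v i|) →
      Indep
        (⨆ v ∈ A, MeasurableSpace.comap (fun X : (Fin d → ℤ) → Fin q => X v)
          (⊤ : MeasurableSpace (Fin q)))
        (⨆ v ∈ B, MeasurableSpace.comap (fun X : (Fin d → ℤ) → Fin q => X v)
          (⊤ : MeasurableSpace (Fin q))) μ) :
    13 ≤ q := by
  obtain ⟨e, rfl⟩ := Nat.exists_eq_add_of_le' hd
  have key : ∀ c : Fin q, μ.real {X | X 0 = c} < 1 / 12 := by
    intro c
    apply dens3 (f := fun S => μ.real {X : (Fin (e + 3) → ℤ) → Fin q | ∀ w ∈ S, X (emb e w) ≠ c})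
    apply hc_of_emb (emb e)
    · filter_upwards [hprop] with X hX
      intro u v huv
      apply hX
      rw [emb_dist]
      exact adj3_dist u v huv
    · intro A B hAB
      have h1 := hdep (emb e '' A) (emb e '' B) (by
        rintro _ ⟨a, ha, rfl⟩ _ ⟨b, hb, rfl⟩
        rw [emb_dist]
        exact not_adj3_dist a b (hAB a ha b hb).1 (hAB a ha b hb).2)
      rw [iSup_image, iSup_image] at h1
      exact h1
    · intro v
      exact dens_const hstat c _
  have hsum := dens_sum (μ := μ) (0 : Fin (e + 3) → ℤ)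
  by_contra hlt
  push Not at hlt
  have h1 : ∑ c : Fin q, μ.real {X : (Fin (e + 3) → ℤ) → Fin q | X 0 = c} ≤
      ∑ _c : Fin q, (1 / 12 : ℝ) := Finset.sum_le_sum (fun c _ => (key c).le)
  have hq : 0 < q := by
    rcases Nat.eq_zero_or_pos q with rfl | h
    · simp at hsum
    · exact h
  have h2 : ∑ c : Fin q, μ.real {X : (Fin (e + 3) → ℤ) → Fin q | X 0 = c} <
      ∑ _c : Fin q, (1 / 12 : ℝ) := by
    apply Finset.sum_lt_sum (fun c _ => (key c).le)
    exact ⟨⟨0, hq⟩, Finset.mem_univ _, key _⟩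
  rw [hsum] at h2
  simp only [Finset.sum_const, Finset.card_univ, Fintype.card_fin, nsmul_eq_mul] at h2
  have h3 : (q : ℝ) ≤ 12 := by exact_mod_cast (by omega : q ≤ 12)
  linarith

end Pool.Agent.Results.MP_ee7213_pr.ThreeDimThirteen
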